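import Mathlib.Combinatorics.SimpleGraph.Acyclic
import Mathlib.Combinatorics.SimpleGraph.DeleteEdges
import Mathlib.Data.Setoid.Partition
import Mathlib.Tactic

/-!
# Common convex characters of two trees: the counts are not log-concave

Two semilabelled binary trees `T`, `F` of size `12` with `a_7 = 56`, `a_8 = 83`, `a_9 = 126`, so
that `a_8 ^ 2 < a_7 * a_9`. Upper bound for `a_8`: the paths joining two leaves of one class and two
leaves of another class have no vertex in common; all partitions of the twelve leaves with this
property in both trees and with eight classes are enumerated by the kernel. Lower bounds for `a_7`,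
`a_9`: lists of partitions, for each of which the kernel finds suitable sets of edges.
-/

set_option autoImplicit false
set_option maxRecDepth 100000

namespace Pool.Agent.Results.MP_8b9f13_co.NotLogConcave

open SimpleGraph

/-- A semilabelled binary tree of size `n`: a finite tree all of whose vertices have degree `1` or
`3`, with a bijection `leaf` from the labels to the vertices of degree `1`. -/
structure SLTree (n : ℕ) where
  /-- the vertices -/
  V : Type
  fin : Finite V
  /-- the tree -/
  G : SimpleGraph V
  tree : G.IsTree
  deg : ∀ v, (G.neighborSet v).ncard = 1 ∨ (G.neighborSet v).ncard = 3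
  /-- the leaf with a given label -/
  leaf : Fin n → V
  leaf_inj : Function.Injective leaf
  leaf_range : Set.range leaf = {v | (G.neighborSet v).ncard = 1}

/-- The partitions of the labels (as equivalence relations) obtained by deleting a set of edges:
two labels are equivalent if their leaves are in the same component. -/
def SLTree.conv {n : ℕ} (T : SLTree n) : Set (Setoid (Fin n)) :=
  {s | ∃ S : Set (Sym2 T.V), ∀ i j,
    s.r i j ↔ (T.G.deleteEdges S).Reachable (T.leaf i) (T.leaf j)}

/-- The partition has at least two classes with at least two elements. -/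
def NonTriv {n : ℕ} (s : Setoid (Fin n)) : Prop :=
  ∃ i j i' j', i ≠ j ∧ i' ≠ j' ∧ s.r i j ∧ s.r i' j' ∧ ¬ s.r i i'

/-- `a_k(T,F)`: the number of non-trivial common partitions with `k` classes. -/
noncomputable def a {n : ℕ} (T F : SLTree n) (k : ℕ) : ℕ :=
  {s : Setoid (Fin n) | s ∈ T.conv ∧ s ∈ F.conv ∧ s.classes.ncard = k ∧ NonTriv s}.ncard

/-! ### digits -/

/-- the digit number `b` in base `16` -/
def rr (R b : ℕ) : ℕ := R / 16 ^ b % 16

/-- the number with given digits -/
def code (f : ℕ → ℕ) : ℕ → ℕ
  | 0 => 0
  | i + 1 => code f i + f i * 16 ^ i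

theorem code_lt (f : ℕ → ℕ) (hf : ∀ b, f b < 16) (i : ℕ) : code f i < 16 ^ i := by
  induction i with
  | zero => simp [code]
  | succ i ih =>
    have h1 : f i * 16 ^ i ≤ 15 * 16 ^ i := Nat.mul_le_mul_right _ (by have := hf i; omega)
    simp only [code, pow_succ]
    omega

theorem rr_code (f : ℕ → ℕ) (hf : ∀ b, f b < 16) (i b : ℕ) (hb : b < i) :
    rr (code f i) b = f b := by
  induction i with
  | zero => omega
  | succ i ih =>
    have h16 : 0 < 16 ^ b := by positivity
    rcases Nat.lt_or_ge b i with h | h
    · have h1 := ih h
      unfold rr at h1 ⊢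
      simp only [code]
      have h2 : f i * 16 ^ i = (f i * 16 ^ (i - b - 1) * 16) * 16 ^ b := by
        rw [mul_assoc, mul_assoc, ← pow_succ', ← pow_add]
        congr 2
        omega
      rw [h2, Nat.add_mul_div_right _ _ h16, Nat.add_mul_mod_self_right]
      exact h1
    · have hbi : b = i := by omega
      subst hbi
      unfold rr
      simp only [code]
      rw [Nat.add_mul_div_right _ _ h16, Nat.div_eq_of_lt (code_lt f hf b), zero_add,
        Nat.mod_eq_of_lt (hf b)]

theorem code_rr (R i : ℕ) : code (rr R) i = R % 16 ^ i := by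
  induction i with
  | zero => simp [code, Nat.mod_one]
  | succ i ih =>
    simp only [code]
    rw [ih, pow_succ, Nat.mod_mul]
    unfold rr
    ring

/-! ### trees given by numbers -/

/-- The data of a tree with vertices `0, ..., 21`: the parents, the descendants, and the vertices
between two leaves. -/
structure Dat where
  /-- parents -/
  P : ℕ
  /-- descendants -/
  D : ℕ
  /-- vertices between two leaves -/
  M : ℕ

/-- the parent of `v` -/
def Dat.p (d : Dat) (v : ℕ) : ℕ := d.P / 32 ^ v % 32

/-- `u` is a descendant of `c` -/
def Dat.b (d : Dat) (c u : ℕ) : Bool := Nat.testBit d.D (22 * c + u)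

/-- the set of the inner vertices between the leaves `i`, `j` -/
def Dat.m (d : Dat) (i j : ℕ) : ℕ := d.M / 2 ^ (22 * (12 * i + j)) % 4194304

/-- the properties of the data -/
def Dat.chk (d : Dat) : Bool :=
  ((List.range 21).all fun v => decide (v < d.p v) && decide (d.p v < 22)) &&
  decide (d.p 21 = 21) &&
  ((List.range 21).all fun c => (List.range 21).all fun u =>
    decide (u = d.p c) || decide (d.p u = d.p c) || (d.b c u == d.b c (d.p u))) &&
  ((List.range 12).all fun i => (List.range 12).all fun j => (List.range 22).all fun w =>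
    !(Nat.testBit (d.m i j) w) || (decide (12 ≤ w) && (List.range 21).any fun c =>
      decide (d.p c = w) && (d.b c i != d.b c j)))

/-- the graph -/
def Dat.G (d : Dat) : SimpleGraph (Fin 22) where
  Adj u v := u ≠ v ∧ (d.p u.val = v.val ∨ d.p v.val = u.val)
  symm := ⟨fun _ _ h => ⟨h.1.symm, h.2.symm⟩⟩
  loopless := ⟨fun _ h => h.1 rfl⟩

instance (d : Dat) : DecidableRel d.G.Adj := fun u v =>
  inferInstanceAs (Decidable (u ≠ v ∧ (d.p u.val = v.val ∨ d.p v.val = u.val)))

theorem chk1 {d : Dat} (h : d.chk = true) : ∀ v < 21, v < d.p v ∧ d.p v < 22 := by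
  simp only [Dat.chk, Bool.and_eq_true, List.all_eq_true, List.mem_range, decide_eq_true_eq] at h
  exact h.1.1.1

theorem chk2 {d : Dat} (h : d.chk = true) : d.p 21 = 21 := by
  simp only [Dat.chk, Bool.and_eq_true, List.all_eq_true, List.mem_range, decide_eq_true_eq] at h
  exact h.1.1.2

theorem chk3 {d : Dat} (h : d.chk = true) : ∀ c < 21, ∀ u < 21, u ≠ d.p c → d.p u ≠ d.p c →
    d.b c u = d.b c (d.p u) := by
  simp only [Dat.chk, Bool.and_eq_true, List.all_eq_true, List.mem_range, decide_eq_true_eq,
    Bool.or_eq_true, beq_iff_eq] at h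
  intro c hc u hu h1 h2
  rcases h.1.2 c hc u hu with (h3 | h3) | h3
  · exact absurd h3 h1
  · exact absurd h3 h2
  · exact h3

theorem chk4 {d : Dat} (h : d.chk = true) : ∀ i < 12, ∀ j < 12, ∀ w < 22,
    Nat.testBit (d.m i j) w = true → 12 ≤ w ∧ ∃ c < 21, d.p c = w ∧ d.b c i ≠ d.b c j := by
  simp only [Dat.chk, Bool.and_eq_true, List.all_eq_true, List.mem_range, decide_eq_true_eq,
    Bool.or_eq_true, beq_iff_eq, Bool.not_eq_true', List.any_eq_true, bne_iff_ne] at h
  intro i hi j hj w hw h1
  rcases h.2 i hi j hj w hw with h3 | h3
  · rw [h1] at h3; exact absurd h3 (by simp)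
  · exact h3

theorem conn {d : Dat} (h : d.chk = true) : d.G.Connected := by
  have key : ∀ (m : ℕ) (v : Fin 22), 21 - v.val = m → d.G.Reachable v ⟨21, by norm_num⟩ := by
    intro m
    induction m using Nat.strong_induction_on with
    | _ m ih =>
      intro v hv
      have hv2 := v.isLt
      rcases Nat.lt_or_ge v.val 21 with h1 | h1
      · have h2 := chk1 h v.val h1
        have h3 : d.G.Adj v ⟨d.p v.val, h2.2⟩ := by
          refine ⟨?_, Or.inl rfl⟩
          intro h4
          have := congrArg Fin.val h4
          simp only at this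
          omega
        exact h3.reachable.trans (ih (21 - d.p v.val) (by omega) ⟨d.p v.val, h2.2⟩ rfl)
      · have h2 : v = ⟨21, by norm_num⟩ := Fin.ext (by simp only; omega)
        rw [h2]
  refine { preconnected := fun u v => (key _ u rfl).trans (key _ v rfl).symm, nonempty := ⟨0⟩ }

/-- a path between leaves on different sides of `c` contains the parent of `c` -/
theorem sep {d : Dat} (h : d.chk = true) {S : Set (Sym2 (Fin 22))} (c : ℕ) (hc : c < 21)
    {u v : Fin 22} (q : (d.G.deleteEdges S).Walk u v) (hu : u.val ≠ d.p c) (hv : v.val ≠ d.p c)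
    (hb : d.b c u.val ≠ d.b c v.val) : ∃ w : Fin 22, w.val = d.p c ∧
      (d.G.deleteEdges S).Reachable u w := by
  induction q with
  | nil => exact absurd rfl hb
  | @cons x y z hxy q ih =>
    by_cases hy : y.val = d.p c
    · exact ⟨y, hy, hxy.reachable⟩
    · have hxy' : d.G.Adj x y := (SimpleGraph.deleteEdges_adj.1 hxy).1
      have h1 : d.b c x.val = d.b c y.val := by
        rcases hxy'.2 with h2 | h2
        · have hx : x.val < 21 := by
            by_contra h3
            have h4 : x.val = 21 := by have := x.isLt; omega
            rw [h4, chk2 h] at h2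
            exact hxy'.1 (Fin.ext (by omega))
          rw [← h2] at hy ⊢
          exact chk3 h c hc x.val hx hu hy
        · have hx : y.val < 21 := by
            by_contra h3
            have h4 : y.val = 21 := by have := y.isLt; omega
            rw [h4, chk2 h] at h2
            exact hxy'.1 (Fin.ext (by omega))
          rw [← h2] at hu ⊢
          exact (chk3 h c hc y.val hx hy hu).symm
      obtain ⟨w, hw1, hw2⟩ := ih hy hv (h1 ▸ hb)
      exact ⟨w, hw1, hxy.reachable.trans hw2⟩

/-- the leaf with a given label -/
def lf (i : Fin 12) : Fin 22 := ⟨i.val, by omega⟩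

theorem disj {d : Dat} (h : d.chk = true) {s : Setoid (Fin 12)} {S : Set (Sym2 (Fin 22))}
    (hs : ∀ i j, s.r i j ↔ (d.G.deleteEdges S).Reachable (lf i) (lf j)) {i j i' j' : Fin 12}
    (h1 : s.r i j) (h2 : s.r i' j') (h3 : ¬ s.r i i') :
    d.m i.val j.val &&& d.m i'.val j'.val = 0 := by
  by_contra h0
  obtain ⟨w, hw⟩ := Nat.exists_testBit_of_ne_zero h0
  rw [Nat.testBit_and, Bool.and_eq_true] at hw
  have hw22 : w < 22 := by
    by_contra h4
    have h5 : d.m i.val j.val < 2 ^ w := by
      calc d.m i.val j.val < 4194304 := Nat.mod_lt _ (by norm_num)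
        _ = 2 ^ 22 := by norm_num
        _ ≤ 2 ^ w := Nat.pow_le_pow_right (by norm_num) (by omega)
    rw [Nat.testBit_lt_two_pow h5] at hw
    exact absurd hw.1 (by simp)
  have hreach : ∀ i j : Fin 12, s.r i j → Nat.testBit (d.m i.val j.val) w = true →
      (d.G.deleteEdges S).Reachable (lf i) ⟨w, hw22⟩ := by
    intro i j hij hb
    obtain ⟨hw12, c, hc, hcw, hbc⟩ := chk4 h i.val i.isLt j.val j.isLt w hw22 hb
    obtain ⟨q⟩ := (hs i j).1 hij
    have hi := i.isLt
    have hj := j.isLt
    obtain ⟨w', hw', hr⟩ := sep h c hc q (by simp only [lf]; omega) (by simp only [lf]; omega) hbc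
    have h6 : w' = ⟨w, hw22⟩ := Fin.ext (by simp only; omega)
    rw [h6] at hr
    exact hr
  exact h3 ((hs i i').2 ((hreach i j h1 hw.1).trans (hreach i' j' h2 hw.2).symm))

/-! ### realising a partition -/

/-- the label of a vertex: the class whose subtree contains it, or `0` -/
def Dat.lab (d : Dat) (R v : ℕ) : ℕ :=
  if v < 12 then rr R v + 1 else
    (List.range 12).foldl (fun acc i =>
      if rr R i ≠ i ∧ Nat.testBit (d.m (rr R i) i) v = true then rr R i + 1 else acc) 0

/-- the uppermost vertices of the subtrees -/
def Dat.tops (d : Dat) (R : ℕ) : List ℕ :=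
  (List.range 22).filter fun u => decide (d.lab R u ≠ 0) &&
    (decide (d.p u = u) || decide (d.lab R (d.p u) ≠ d.lab R u))

/-- every subtree has only one uppermost vertex -/
def Dat.good (d : Dat) (R : ℕ) : Bool := decide ((d.tops R).map (d.lab R)).Nodup

/-- the partition given by the digits of `R` -/
def sR (R : ℕ) : Setoid (Fin 12) := Setoid.ker (fun i : Fin 12 => rr R i.val)

theorem good_conv {d : Dat} (h : d.chk = true) {R : ℕ} (hR : d.good R = true) :
    ∃ S : Set (Sym2 (Fin 22)), ∀ i j, (sR R).r i j ↔ (d.G.deleteEdges S).Reachable (lf i) (lf j) := by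
  have hnd : ((d.tops R).map (d.lab R)).Nodup := of_decide_eq_true hR
  have hinj := List.inj_on_of_nodup_map hnd
  refine ⟨{e | ¬ ∃ u v : Fin 22, e = s(u, v) ∧ d.lab R u.val = d.lab R v.val ∧
    d.lab R u.val ≠ 0}, ?_⟩
  obtain ⟨H, hH⟩ : ∃ H, H = d.G.deleteEdges {e | ¬ ∃ u v : Fin 22, e = s(u, v) ∧
    d.lab R u.val = d.lab R v.val ∧ d.lab R u.val ≠ 0} := ⟨_, rfl⟩
  rw [← hH]
  have hadj : ∀ u v, H.Adj u v ↔ d.G.Adj u v ∧ d.lab R u.val = d.lab R v.val ∧
      d.lab R u.val ≠ 0 := by
    intro u v
    rw [hH, SimpleGraph.deleteEdges_adj, Set.mem_ofPred_eq, not_not]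
    constructor
    · rintro ⟨h1, x, y, hxy, h2, h3⟩
      refine ⟨h1, ?_⟩
      rcases Sym2.eq_iff.1 hxy with ⟨rfl, rfl⟩ | ⟨rfl, rfl⟩
      · exact ⟨h2, h3⟩
      · exact ⟨h2.symm, h2 ▸ h3⟩
    · rintro ⟨h1, h2, h3⟩
      exact ⟨h1, u, v, rfl, h2, h3⟩
  have hlab : ∀ u v, H.Reachable u v → d.lab R u.val = d.lab R v.val := by
    rintro u v ⟨q⟩
    induction q with
    | nil => rfl
    | cons hxy q ih => exact ((hadj _ _).1 hxy).2.1.trans ih
  have htop : ∀ (m : ℕ) (v : Fin 22), 21 - v.val = m → d.lab R v.val ≠ 0 →
      ∃ w : Fin 22, w.val ∈ d.tops R ∧ H.Reachable v w := by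
    intro m
    induction m using Nat.strong_induction_on with
    | _ m ih =>
      intro v hv h0
      have hv2 := v.isLt
      by_cases ht : v.val ∈ d.tops R
      · exact ⟨v, ht, Reachable.refl _⟩
      · have h1 : ¬ (d.p v.val = v.val ∨ d.lab R (d.p v.val) ≠ d.lab R v.val) := by
          intro h2
          apply ht
          simp only [Dat.tops, List.mem_filter, List.mem_range, Bool.and_eq_true,
            Bool.or_eq_true, decide_eq_true_eq]
          exact ⟨hv2, h0, h2⟩
        rw [not_or, not_not] at h1
        have h3 : v.val < 21 := by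
          by_contra h4
          have h5 : v.val = 21 := by omega
          apply h1.1
          rw [h5, chk2 h]
        have h6 := chk1 h v.val h3
        have h7 : H.Adj v ⟨d.p v.val, h6.2⟩ := by
          rw [hadj]
          refine ⟨⟨?_, Or.inl rfl⟩, h1.2.symm, h0⟩
          intro h8
          have := congrArg Fin.val h8
          simp only at this
          omega
        obtain ⟨w, hw1, hw2⟩ := ih (21 - d.p v.val) (by omega) ⟨d.p v.val, h6.2⟩ rfl
          (by simp only; rw [h1.2]; exact h0)
        exact ⟨w, hw1, h7.reachable.trans hw2⟩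
  have hleaf : ∀ i : Fin 12, d.lab R (lf i).val = rr R i.val + 1 := by
    intro i
    have hi := i.isLt
    exact if_pos hi
  intro i j
  constructor
  · intro hij
    have hij' : rr R i.val = rr R j.val := hij
    obtain ⟨w, hw1, hw2⟩ := htop _ (lf i) rfl (by rw [hleaf]; omega)
    obtain ⟨w', hw1', hw2'⟩ := htop _ (lf j) rfl (by rw [hleaf]; omega)
    have h1 := hlab _ _ hw2
    have h2 := hlab _ _ hw2'
    rw [hleaf] at h1 h2
    have h3 : w.val = w'.val := hinj hw1 hw1' (by rw [← h1, ← h2, hij'])
    have h4 : w = w' := Fin.ext h3
    rw [h4] at hw2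
    exact hw2.trans hw2'.symm
  · intro hij
    have h1 := hlab _ _ hij
    rw [hleaf, hleaf] at h1
    change rr R i.val = rr R j.val
    omega

/-! ### least elements of classes -/

open Classical in
/-- the least element of the class of `i` -/
noncomputable def rm (s : Setoid (Fin 12)) (i : Fin 12) : Fin 12 :=
  (Finset.univ.filter (fun j => s.r j i)).min' ⟨i, by simp⟩

theorem rm_rel (s : Setoid (Fin 12)) (i : Fin 12) : s.r (rm s i) i := by
  classical
  have h := Finset.min'_mem (Finset.univ.filter (fun j => s.r j i)) ⟨i, by simp⟩
  simp only [Finset.mem_filter, Finset.mem_univ, true_and] at h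
  exact h

theorem rm_le (s : Setoid (Fin 12)) {i j : Fin 12} (h : s.r j i) : rm s i ≤ j := by
  classical
  exact Finset.min'_le _ _ (by simpa using h)

theorem rm_eq_iff (s : Setoid (Fin 12)) (i j : Fin 12) : rm s i = rm s j ↔ s.r i j := by
  constructor
  · intro h
    have h1 := rm_rel s i
    have h2 := rm_rel s j
    rw [h] at h1
    exact s.trans' (s.symm' h1) h2
  · intro h
    apply le_antisymm
    · exact rm_le s (s.trans' (rm_rel s j) (s.symm' h))
    · exact rm_le s (s.trans' (rm_rel s i) h)

theorem rm_rm (s : Setoid (Fin 12)) (i : Fin 12) : rm s (rm s i) = rm s i :=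
  (rm_eq_iff s _ _).2 (rm_rel s i)

/-- the digits of a partition -/
noncomputable def fs (s : Setoid (Fin 12)) (b : ℕ) : ℕ :=
  if h : b < 12 then (rm s ⟨b, h⟩).val else 0

theorem fs_lt (s : Setoid (Fin 12)) (b : ℕ) : fs s b < 16 := by
  unfold fs
  split_ifs with h
  · have := (rm s ⟨b, h⟩).isLt
    omega
  · omega

theorem fs_eq (s : Setoid (Fin 12)) (i : Fin 12) : fs s i.val = (rm s i).val := by
  unfold fs
  rw [dif_pos i.isLt]

theorem code_inj {s s' : Setoid (Fin 12)} (h : code (fs s) 12 = code (fs s') 12) : s = s' := by
  have h1 : ∀ i, rm s i = rm s' i := by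
    intro i
    have h2 := rr_code (fs s) (fs_lt s) 12 i.val i.isLt
    have h3 := rr_code (fs s') (fs_lt s') 12 i.val i.isLt
    rw [h, h3, fs_eq, fs_eq] at h2
    exact Fin.ext h2.symm
  apply Setoid.ext
  intro i j
  rw [← rm_eq_iff, ← rm_eq_iff, h1, h1]

open Classical in
theorem classes_card (s : Setoid (Fin 12)) :
    s.classes.ncard = (Finset.univ.filter (fun i => rm s i = i)).card := by
  rw [← Set.ncard_coe_finset]
  symm
  apply Set.ncard_congr (fun i _ => {x | s.r x i})
  · intro i _
    exact s.mem_classes i
  · intro i j hi hj hij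
    simp only [Finset.coe_filter, Finset.mem_univ, true_and, Set.mem_ofPred_eq] at hi hj
    have h1 : i ∈ {x | s.r x j} := by
      rw [← hij]
      exact s.refl' i
    have h2 : rm s i = rm s j := (rm_eq_iff s i j).2 h1
    rw [hi, hj] at h2
    exact h2
  · rintro t ⟨y, rfl⟩
    refine ⟨rm s y, ?_, ?_⟩
    · simp only [Finset.coe_filter, Finset.mem_univ, true_and, Set.mem_ofPred_eq]
      exact rm_rm s y
    · ext x
      simp only [Set.mem_ofPred_eq]
      constructor
      · intro h; exact s.trans' h (rm_rel s y)
      · intro h; exact s.trans' h (s.symm' (rm_rel s y))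

/-! ### the upper bound -/

/-- the number of digits `b < i` of `R` different from `b` -/
def cnt (R i : ℕ) : ℕ := ((List.range i).filter fun b => rr R b != b).length

/-- `i` may get the digit `j` -/
def tst (T F : Dat) (R i j : ℕ) : Bool :=
  (j == i) || ((rr R j == j) && Nat.blt (cnt R i) 4 &&
    (List.range i).all fun b => (rr R b == b) || (rr R b == j) ||
      ((T.m j i &&& T.m (rr R b) b == 0) && (F.m j i &&& F.m (rr R b) b == 0)))

/-- the continuations of `R` -/
def step (T F : Dat) (i R : ℕ) : List ℕ :=
  ((List.range (i + 1)).filter (tst T F R i)).map fun j => R + j * 16 ^ i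

/-- the candidates with `i` digits -/
def lev (T F : Dat) : ℕ → List ℕ
  | 0 => [0]
  | i + 1 => (lev T F i).flatMap (step T F i)

theorem cnt_congr {R R' i : ℕ} (h : ∀ b < i, rr R b = rr R' b) : cnt R i = cnt R' i := by
  unfold cnt
  congr 1
  apply List.filter_congr
  intro b hb
  rw [h b (List.mem_range.1 hb)]

theorem cnt_succ (R i : ℕ) : cnt R (i + 1) = cnt R i + (if rr R i = i then 0 else 1) := by
  unfold cnt
  rw [List.range_succ, List.filter_append, List.length_append]
  congr 1
  by_cases h : rr R i = i
  · simp [h]
  · simp [h]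

theorem cnt_mono (R : ℕ) {i j : ℕ} (h : i ≤ j) : cnt R i ≤ cnt R j := by
  induction h with
  | refl => exact le_rfl
  | step _ ih => rw [cnt_succ]; omega

open Classical in
theorem cnt_card (R : ℕ) : cnt R 12 + (Finset.univ.filter (fun i : Fin 12 => rr R i.val = i.val)).card
    = 12 := by
  have h1 : cnt R 12 = ((Finset.range 12).filter (fun b => ¬ rr R b = b)).card := by
    unfold cnt
    have h0 : (fun b => rr R b != b) = fun b => decide (¬ rr R b = b) := by
      funext b
      by_cases hb : rr R b = b
      · simp [hb]
      · simp [hb]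
    rw [h0]
    rfl
  have h2 : (Finset.univ.filter (fun i : Fin 12 => rr R i.val = i.val)).card =
      ((Finset.range 12).filter (fun b => rr R b = b)).card := by
    rw [← Finset.card_image_of_injective _ Fin.val_injective]
    congr 1
    ext b
    simp only [Finset.mem_image, Finset.mem_filter, Finset.mem_univ, true_and, Finset.mem_range]
    constructor
    · rintro ⟨i, hi, rfl⟩
      exact ⟨i.isLt, hi⟩
    · rintro ⟨hb, h⟩
      exact ⟨⟨b, hb⟩, h, rfl⟩
  rw [h1, h2, add_comm, Finset.card_filter_add_card_filter_not, Finset.card_range]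

theorem rr_fs (s : Setoid (Fin 12)) (b : ℕ) (i : ℕ) (hb : b < i) : rr (code (fs s) i) b = fs s b :=
  rr_code (fs s) (fs_lt s) i b hb

theorem classes_cnt (s : Setoid (Fin 12)) : cnt (code (fs s) 12) 12 + s.classes.ncard = 12 := by
  classical
  rw [classes_card]
  refine Eq.trans ?_ (cnt_card (code (fs s) 12))
  congr 2
  apply Finset.filter_congr
  intro i _
  rw [rr_fs s i.val 12 i.isLt, fs_eq]
  exact ⟨fun h => congrArg Fin.val h, fun h => Fin.ext h⟩

theorem mem_lev {T F : Dat} (hT : T.chk = true) (hF : F.chk = true) {s : Setoid (Fin 12)}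
    (hsT : ∃ S : Set (Sym2 (Fin 22)), ∀ i j, s.r i j ↔ (T.G.deleteEdges S).Reachable (lf i) (lf j))
    (hsF : ∃ S : Set (Sym2 (Fin 22)), ∀ i j, s.r i j ↔ (F.G.deleteEdges S).Reachable (lf i) (lf j))
    (hc : s.classes.ncard = 8) : ∀ i ≤ 12, code (fs s) i ∈ lev T F i := by
  obtain ⟨S, hS⟩ := hsT
  obtain ⟨S', hS'⟩ := hsF
  intro i
  induction i with
  | zero => intro _; simp [code, lev]
  | succ i ih =>
    intro hi
    have h1 := ih (by omega)
    have hi12 : i < 12 := by omega
    simp only [lev, List.mem_flatMap]
    refine ⟨_, h1, ?_⟩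
    simp only [step, List.mem_map, List.mem_filter, List.mem_range]
    refine ⟨fs s i, ⟨?_, ?_⟩, rfl⟩
    · have h2 : rm s ⟨i, hi12⟩ ≤ ⟨i, hi12⟩ := rm_le s (s.refl' _)
      have h3 := fs_eq s ⟨i, hi12⟩
      have h4 : (rm s ⟨i, hi12⟩).val ≤ i := h2
      simp only at h3
      omega
    · have hfi : fs s i = (rm s ⟨i, hi12⟩).val := fs_eq s ⟨i, hi12⟩
      unfold tst
      by_cases hii : fs s i = i
      · simp [hii]
      · have hlt : fs s i < i := by
          have h2 : rm s ⟨i, hi12⟩ ≤ ⟨i, hi12⟩ := rm_le s (s.refl' _)
          have h4 : (rm s ⟨i, hi12⟩).val ≤ i := h2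
          omega
        have hff : fs s (fs s i) = fs s i := by
          rw [hfi, fs_eq, rm_rm]
        have hcnt : cnt (code (fs s) i) i < 4 := by
          have h5 : cnt (code (fs s) i) i = cnt (code (fs s) 12) i := by
            apply cnt_congr
            intro b hb
            rw [rr_fs s b i hb, rr_fs s b 12 (by omega)]
          have h6 := cnt_succ (code (fs s) 12) i
          rw [rr_fs s i 12 hi12, if_neg hii] at h6
          have h7 := cnt_mono (code (fs s) 12) (show i + 1 ≤ 12 by omega)
          have h8 := classes_cnt s
          omega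
        rw [Bool.or_eq_true]
        right
        rw [Bool.and_eq_true, Bool.and_eq_true, List.all_eq_true]
        refine ⟨⟨?_, ?_⟩, ?_⟩
        · rw [rr_fs s _ i hlt, hff]; simp
        · rw [Nat.blt_eq]; exact hcnt
        · intro b hb
          rw [List.mem_range] at hb
          have hb12 : b < 12 := by omega
          rw [rr_fs s b i hb]
          by_cases hbb : fs s b = b
          · simp [hbb]
          · by_cases hbi : fs s b = fs s i
            · simp [hbi]
            · have hfb : fs s b = (rm s ⟨b, hb12⟩).val := fs_eq s ⟨b, hb12⟩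
              have h9 : ¬ s.r (rm s ⟨i, hi12⟩) (rm s ⟨b, hb12⟩) := by
                intro h10
                rw [← rm_eq_iff, rm_rm, rm_rm] at h10
                apply hbi
                rw [hfb, hfi, h10]
              have h11 := disj hT hS (rm_rel s ⟨i, hi12⟩) (rm_rel s ⟨b, hb12⟩) h9
              have h12 := disj hF hS' (rm_rel s ⟨i, hi12⟩) (rm_rel s ⟨b, hb12⟩) h9
              rw [← hfi, ← hfb] at h11 h12
              simp only at h11 h12
              rw [h11, h12]
              simp

/-- non-trivial -/
def nt (R : ℕ) : Bool :=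
  (List.range 12).any fun i => (List.range 12).any fun j =>
    (rr R i != i) && (rr R j != j) && (rr R i != rr R j)

theorem nt_iff (R : ℕ) : nt R = true ↔ ∃ i < 12, ∃ j < 12, rr R i ≠ i ∧ rr R j ≠ j ∧
    rr R i ≠ rr R j := by
  unfold nt
  simp only [List.any_eq_true, List.mem_range, Bool.and_eq_true, bne_iff_ne, and_assoc]

theorem nt_of_nonTriv {s : Setoid (Fin 12)} (h : NonTriv s) : nt (code (fs s) 12) = true := by
  obtain ⟨i, j, i', j', h1, h2, h3, h4, h5⟩ := h
  have key : ∀ i j : Fin 12, i ≠ j → s.r i j → ∃ c : Fin 12, rm s c ≠ c ∧ rm s c = rm s i := by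
    intro i j hij hr
    have hr' := (rm_eq_iff s i j).2 hr
    by_cases hi : rm s i = i
    · refine ⟨j, ?_, hr'.symm⟩
      rw [← hr', hi]
      exact hij
    · exact ⟨i, hi, rfl⟩
  obtain ⟨c, hc1, hc2⟩ := key i j h1 h3
  obtain ⟨c', hc1', hc2'⟩ := key i' j' h2 h4
  rw [nt_iff]
  refine ⟨c.val, c.isLt, c'.val, c'.isLt, ?_, ?_, ?_⟩
  · rw [rr_fs s _ 12 c.isLt, fs_eq]
    intro h; exact hc1 (Fin.ext h)
  · rw [rr_fs s _ 12 c'.isLt, fs_eq]
    intro h; exact hc1' (Fin.ext h)
  · rw [rr_fs s _ 12 c.isLt, fs_eq, rr_fs s _ 12 c'.isLt, fs_eq, hc2, hc2']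
    intro h
    exact h5 ((rm_eq_iff s i i').1 (Fin.ext h))

/-! ### canonical codes -/

/-- `R` is the code of a non-trivial partition with `12 - e` classes realised in both trees -/
def ck (T F : Dat) (e R : ℕ) : Bool :=
  Nat.blt R (16 ^ 12) && (cnt R 12 == e) && nt R && T.good R && F.good R &&
    (List.range 12).all fun b => Nat.ble (rr R b) b && (rr R (rr R b) == rr R b)

theorem rm_sR {R : ℕ} (h : ∀ b < 12, rr R b ≤ b ∧ rr R (rr R b) = rr R b) (i : Fin 12) :
    (rm (sR R) i).val = rr R i.val := by
  have hi := i.isLt
  have h1 := h i.val hi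
  have hlt : rr R i.val < 12 := by omega
  have h2 : (sR R).r ⟨rr R i.val, hlt⟩ i := h1.2
  have h3 : rm (sR R) i ≤ ⟨rr R i.val, hlt⟩ := rm_le _ h2
  have h4 : (rm (sR R) i).val ≤ rr R i.val := h3
  have h5 : rr R (rm (sR R) i).val = rr R i.val := rm_rel (sR R) i
  have h6 := (h (rm (sR R) i).val (rm (sR R) i).isLt).1
  omega

theorem ck_iff {T F : Dat} {e R : ℕ} (h : ck T F e R = true) : R < 16 ^ 12 ∧ cnt R 12 = e ∧
    nt R = true ∧ T.good R = true ∧ F.good R = true ∧
    ∀ b < 12, rr R b ≤ b ∧ rr R (rr R b) = rr R b := by
  unfold ck at h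
  simp only [Bool.and_eq_true, Nat.blt_eq, beq_iff_eq, List.all_eq_true, List.mem_range,
    Nat.ble_eq] at h
  obtain ⟨⟨⟨⟨⟨h1, h2⟩, h3⟩, h4⟩, h5⟩, h6⟩ := h
  exact ⟨h1, h2, h3, h4, h5, h6⟩

theorem ck_classes {T F : Dat} {e R : ℕ} (h : ck T F e R = true) :
    e + (sR R).classes.ncard = 12 := by
  classical
  obtain ⟨h1, h2, h3, h4, h5, h6⟩ := ck_iff h
  rw [classes_card, ← h2]
  refine Eq.trans ?_ (cnt_card R)
  congr 2
  apply Finset.filter_congr
  intro i _
  rw [← rm_sR h6 i]
  exact ⟨fun h => congrArg Fin.val h, fun h => Fin.ext h⟩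

theorem ck_nonTriv {T F : Dat} {e R : ℕ} (h : ck T F e R = true) : NonTriv (sR R) := by
  obtain ⟨h1, h2, h3, h4, h5, h6⟩ := ck_iff h
  obtain ⟨i, hi, j, hj, h7, h8, h9⟩ := (nt_iff R).1 h3
  have hi' := h6 i hi
  have hj' := h6 j hj
  refine ⟨⟨rr R i, by omega⟩, ⟨i, hi⟩, ⟨rr R j, by omega⟩, ⟨j, hj⟩, ?_, ?_, ?_, ?_, ?_⟩
  · intro h; exact h7 (congrArg Fin.val h)
  · intro h; exact h8 (congrArg Fin.val h)
  · exact hi'.2
  · exact hj'.2
  · intro h
    have h10 : rr R (rr R i) = rr R (rr R j) := h
    rw [hi'.2, hj'.2] at h10
    exact h9 h10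

theorem ck_inj {T F : Dat} {e R R' : ℕ} (h : ck T F e R = true) (h' : ck T F e R' = true)
    (hs : sR R = sR R') : R = R' := by
  obtain ⟨h1, -, -, -, -, h6⟩ := ck_iff h
  obtain ⟨h1', -, -, -, -, h6'⟩ := ck_iff h'
  have h2 : ∀ b < 12, rr R b = rr R' b := by
    intro b hb
    rw [← rm_sR h6 ⟨b, hb⟩, ← rm_sR h6' ⟨b, hb⟩, hs]
  have h3 : ∀ i ≤ 12, code (rr R) i = code (rr R') i := by
    intro i
    induction i with
    | zero => intro _; rfl
    | succ i ih =>
      intro hi
      simp only [code]
      rw [ih (by omega), h2 i (by omega)]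
  have h4 := h3 12 le_rfl
  rw [code_rr, code_rr, Nat.mod_eq_of_lt h1, Nat.mod_eq_of_lt h1'] at h4
  exact h4

/-! ### the trees -/

/-- additional properties of the data -/
def Dat.chk' (d : Dat) : Bool :=
  decide (∑ v : Fin 22, d.G.degree v = 42) && decide (∀ v : Fin 22, d.G.degree v = 1 ∨
    d.G.degree v = 3) && decide (∀ v : Fin 22, d.G.degree v = 1 ↔ v.val < 12)

theorem ncard_deg (d : Dat) (v : Fin 22) : (d.G.neighborSet v).ncard = d.G.degree v := by
  rw [← SimpleGraph.card_neighborSet_eq_degree, ← Nat.card_eq_fintype_card]
  rfl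

/-- the semilabelled tree -/
def Dat.tree (d : Dat) (h : d.chk = true) (h' : d.chk' = true) : SLTree 12 where
  V := Fin 22
  fin := inferInstance
  G := d.G
  tree := by
    simp only [Dat.chk', Bool.and_eq_true, decide_eq_true_eq] at h'
    rw [SimpleGraph.isTree_iff_connected_and_card]
    refine ⟨conn h, ?_⟩
    have h1 := d.G.sum_degrees_eq_twice_card_edges
    rw [h'.1.1] at h1
    rw [Nat.card_eq_fintype_card, Nat.card_eq_fintype_card, ← SimpleGraph.edgeFinset_card,
      Fintype.card_fin]
    omega
  deg := by
    simp only [Dat.chk', Bool.and_eq_true, decide_eq_true_eq] at h'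
    intro v
    rw [ncard_deg]
    exact h'.1.2 v
  leaf := lf
  leaf_inj := by
    intro i j hij
    have := congrArg Fin.val hij
    exact Fin.ext this
  leaf_range := by
    simp only [Dat.chk', Bool.and_eq_true, decide_eq_true_eq] at h'
    ext v
    rw [Set.mem_ofPred_eq, ncard_deg, h'.2 v]
    constructor
    · rintro ⟨i, rfl⟩
      exact i.isLt
    · intro hv
      exact ⟨⟨v.val, hv⟩, Fin.ext rfl⟩

instance : Finite (Setoid (Fin 12)) := by
  apply Finite.of_injective (fun s : Setoid (Fin 12) => fun i j => s.r i j)
  intro s s' h
  apply Setoid.ext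
  intro i j
  exact iff_of_eq (congrFun (congrFun h i) j)

theorem lower {T F : Dat} (hT : T.chk = true) (hT' : T.chk' = true) (hF : F.chk = true)
    (hF' : F.chk' = true) {e k : ℕ} (hk : e + k = 12) (L : List ℕ) (hL : L.Nodup)
    (hck : (L.all (ck T F e)) = true) : L.length ≤ a (T.tree hT hT') (F.tree hF hF') k := by
  classical
  rw [List.all_eq_true] at hck
  have h1 : L.length = (sR '' {R | R ∈ L}).ncard := by
    rw [Set.InjOn.ncard_image]
    · have : {R | R ∈ L} = ((L.toFinset : Finset ℕ) : Set ℕ) := by
        ext x; simp
      rw [this, Set.ncard_coe_finset, List.toFinset_card_of_nodup hL]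
    · intro R hR R' hR' h
      exact ck_inj (hck R hR) (hck R' hR') h
  rw [h1]
  unfold a
  apply Set.ncard_le_ncard _ (Set.toFinite _)
  rintro _ ⟨R, hR, rfl⟩
  have h2 := hck R hR
  obtain ⟨-, -, -, h4, h5, -⟩ := ck_iff h2
  have h6 := ck_classes h2
  exact ⟨good_conv hT h4, good_conv hF h5, by omega, ck_nonTriv h2⟩

theorem upper {T F : Dat} (hT : T.chk = true) (hT' : T.chk' = true) (hF : F.chk = true)
    (hF' : F.chk' = true) {N : ℕ}
    (hN : ((lev T F 12).filter fun R => (cnt R 12 == 4) && nt R).length ≤ N) :
    a (T.tree hT hT') (F.tree hF hF') 8 ≤ N := by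
  classical
  refine le_trans ?_ hN
  refine le_trans ?_ (List.toFinset_card_le _)
  rw [← Set.ncard_coe_finset]
  unfold a
  apply Set.ncard_le_ncard_of_injOn (fun s => code (fs s) 12)
  · rintro s ⟨h1, h2, h3, h4⟩
    simp only [List.coe_toFinset, Set.mem_ofPred_eq, List.mem_filter, Bool.and_eq_true, beq_iff_eq]
    refine ⟨mem_lev hT hF h1 h2 h3 12 le_rfl, ?_, nt_of_nonTriv h4⟩
    have := classes_cnt s
    omega
  · intro s _ s' _ h
    exact code_inj h

/-! ### the example -/

/-- the first tree -/
def dT : Dat where
  P := 879299625108806017079561998978510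
  D := 49947970844249013455410180208280354051704076101252931651020232236366721493660432495727857556476934428695926362582688391726563424582595431175815169
  M := 91093089796822250776691567142018149288771110972884239697526715783030564278253098759899074459332108628479821230394122255020011656533428550164816288036171797662671214234791871181111499289846451898602899278321589486129503605041588420773499560029237809082190865326683058676653488724772064955480467899580900479706111986174432181671671460272089882566733304765771510166287524480799486451313571443247485903922717611177482505685079388986140251274605431670452491619539526685931505221908271355804330190683023125594653710292913038845605504072781503235015080602190871196574746184788941531585420045544730216153574005712929769261453129980350792879128301691826404086492405993043083737668161482949825399793181355347535772199337701453544804991795485736333345265808642061689008707983585616614744310141515932087809388370884850784381455870852744623095831036018775356293648478475279412750451469463093161083606082762518875899582068160791039707745546333318359221436153856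

/-- the second tree -/
def dF : Dat where
  P := 879298387282074708714493877859852
  D := 49947970844953489170308822192505110752439893126910710039346769158198672797255445809551615722914484286540984369632588638871016841757363800792629249
  M := 106310993383654233437497508933822714812823031314500309432135795687147613481230861591486284038571505794408292516218426880627143981104457342881061272781561312505905854056564610926364174586178598046371427350006620450895412765090173156706384256837054648258126794477987655267205374101236575378684946352967048582845709675024102732015124020200461031935547786300284782975219225644248817320391112570168419935969629781927919474473182494277249398208426267307920624401678626772233275270958200003663286425675896993496973532845924918917352253324073786924007933337746753065736156284923506931322346193808065534281964267449943582221426567284360987120376131238357091943658651517938005860038852668253691369615458885042449780402685985119427439396146084373939494603997758784180657296435593315042839160530352510028316404320134677213279995713371217899394421565965813494629668320012141609277911557543986510592991109990442813198713961169383162486110051195088803164835545088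

/-- codes of partitions with 7 classes -/
def L7 : List ℕ := [
  205129617900032, 204545502347776, 194168861360640, 11649931149824, 204511147852288,
  194134506865152, 11615576654336, 193550391312896, 11031461102080, 654820114944,
  204511142621696, 194134501634560, 11615571423744, 193550386082304, 11031455871488,
  654814884352, 193516031586816, 10997101376000, 620460388864, 36344836608, 204511142609424,
  194134501622288, 11615571411472, 193550386070032, 11031455859216, 654814872080,
  193516031574544, 10997101363728, 620460376592, 36344824336, 204584158106128, 195238309270032,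
  29212053475856, 194718618227216, 28692362433040, 19346513596944, 194688557650448,
  28662301856272, 19316453020176, 18796761977360, 193516026343952, 10997096133136, 620455146000,
  36339593744, 194688553464336, 28662297670160, 19316448834064, 18796757791248, 197033607705104,
  63992700744208, 56708436210192, 56317594186256, 1985098256, 18766697214480, 56296121446928,
  93825545679376]

/-- codes of partitions with 9 classes -/
def L9 : List ℕ := [
  205163982881280, 205163977650688, 205163915784704, 205162640716288, 205129623155200,
  204545507602944, 194168866615808, 202964959638016, 11649936404992, 64426494538240,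
  205162573738496, 205162070422016, 205163144163840, 202963080720896, 64424615621120,
  205163977638416, 205129623142928, 205138213077520, 204545507590672, 204682946544144,
  205095263404560, 194168866603536, 11649936392720, 205138207965712, 205146797900304,
  205095162872336, 205093384487440, 204657176871440, 204803205759504, 205163978691088,
  205133918114320, 204614227071504, 195268378235408, 29242122441232, 205129617912336,
  205138207846928, 204545502360080, 194168861372944, 197467396256272, 11649931162128,
  46834303250960, 152387419517456, 205133913928208, 204614222885392, 195268374049296,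
  29242118255120, 195268375097872, 205138210992656, 205142505959952, 204751663936016,
  197467399402000, 64426492441104, 204889037877776, 152387357651472, 204887762809360,
  197466059321872, 152386082583056, 204511147864592, 194134506877456, 11615576666640,
  204584162308624, 195238313472528, 29212057678352, 204588457275920, 204730191196688,
  197445926662672, 64405019701776, 204876220084752, 199653539852816, 99597981725200,
  193550391325200, 11031461114384, 194718622429712, 196917645685264, 28692366635536,
  46284552679952, 151837668946448, 197055084638736, 64014177677840, 199391546847760,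
  202690081731088, 64151616631312, 99335988720144, 202896240161296, 152318705283600,
  654820127248, 19346517799440, 36938703843856, 89715261977104, 56729913143824, 94113308488208,
  150188401504784, 45734796866064, 168880099176976, 197467346055696, 46808533578256,
  82001495601680, 7251884782096, 36938700829200, 64424881959440, 72123075015184, 205093283836432,
  99609172259344, 89715178222096, 204887695831568, 152386015605264, 197466009121296,
  205094139474448, 204584112108048, 195238263271952, 194718572229136, 196917595484688,
  202896189960720, 204888266256912, 152386586030608, 202894361244176, 89713651495440,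
  204875951780368, 99597713420816, 99335720415760, 152318436979216, 95212551811600,
  46258783007248, 81451745030672, 36388948161040, 71573320249872]

theorem T_chk : dT.chk = true := by decide +kernel

theorem F_chk : dF.chk = true := by decide +kernel

theorem T_chk' : dT.chk' = true := by decide +kernel

theorem F_chk' : dF.chk' = true := by decide +kernel

theorem nodup7 : L7.Nodup := by decide +kernel

theorem nodup9 : L9.Nodup := by decide +kernel

theorem ck7 : (L7.all (ck dT dF 5)) = true := by decide +kernel

theorem ck9 : (L9.all (ck dT dF 3)) = true := by decide +kernel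

theorem up8 : ((lev dT dF 12).filter fun R => (cnt R 12 == 4) && nt R).length ≤ 83 := by
  decide +kernel

/-- Two trees of size `12` whose sequence is not log-concave. -/
theorem result : ∃ T F : SLTree 12, (a T F 8) ^ 2 < a T F 7 * a T F 9 := by
  refine ⟨dT.tree T_chk T_chk', dF.tree F_chk F_chk', ?_⟩
  have h7 := lower T_chk T_chk' F_chk F_chk' (show 5 + 7 = 12 by norm_num) L7 nodup7 ck7
  have h9 := lower T_chk T_chk' F_chk F_chk' (show 3 + 9 = 12 by norm_num) L9 nodup9 ck9
  have h8 := upper T_chk T_chk' F_chk F_chk' up8
  have l7 : L7.length = 56 := by decide +kernel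
  have l9 : L9.length = 126 := by decide +kernel
  rw [l7] at h7
  rw [l9] at h9
  calc (a (dT.tree T_chk T_chk') (dF.tree F_chk F_chk') 8) ^ 2 ≤ 83 ^ 2 :=
        Nat.pow_le_pow_left h8 2
    _ < 56 * 126 := by norm_num
    _ ≤ _ := Nat.mul_le_mul h7 h9

end Pool.Agent.Results.MP_8b9f13_co.NotLogConcave
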